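import Pool.Agent.BEG.Stmts

/-!
# Squad BEG, row FKN: the theorem for a subspace
-/

set_option autoImplicit false

namespace Pool.Agent.BEG.H23

open Set Filter Topology MeasureTheory
open scoped InnerProductSpace ENNReal
open Pool.Agent.BE01 Pool.Agent.BEL Pool.Agent.BEF Pool.Agent.BEH Pool.Agent.BEN Pool.Agent.BEG

noncomputable section

theorem fkn_fin {d : ℕ} {Ω : Set (En d)} (h : Dom Ω) : IsFiniteMeasure (mu Ω) := by
  refine ⟨?_⟩
  rw [mu, Measure.restrict_apply_univ]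
  exact h.2.1.measure_lt_top

theorem fkn (hWX : WxcStmt) (hSB : SbkStmt) (hSL : SlkStmt) (hMA : MakStmt) : FknStmt := by
  intro d Ω K p l φ hd hΩ hK hp hφK hφ hl
  haveI := fkn_fin hΩ
  obtain ⟨C0, hC0, hW⟩ := hWX d Ω hd hΩ
  obtain ⟨X, i1, i2, W, Z, hX, hWk, hSb⟩ := hW Ω hΩ (subset_refl _)
  obtain ⟨X', i3, i4, W', i, hR⟩ := hSB d Ω X W Z K hX hWk hK
  have hSK : ∀ h ∈ K, W.S h ∈ K := fun h hh =>
    hK.slv h hh (W.S h) (Z h) (hWk.dom h) (hWk.weak h)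
  have e1 : φ = l • W.S φ := (hWk.eig l φ).1 hl
  have hl0 : 0 < l := by
    have h1 : 0 < ⟪φ, φ⟫_ℝ := by
      rw [real_inner_self_eq_norm_sq]
      exact pow_pos (norm_pos_iff.2 hφ) 2
    have h2 : ⟪φ, φ⟫_ℝ = l * ‖Z φ‖ ^ 2 := by
      rw [hWk.nrm φ]
      nth_rewrite 2 [e1]
      rw [real_inner_smul_right]
    rw [h2] at h1
    by_contra hcon
    push Not at hcon
    have h3 : l * ‖Z φ‖ ^ 2 ≤ 0 := mul_nonpos_of_nonpos_of_nonneg hcon (sq_nonneg _)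
    linarith
  have hω : 0 < √l := Real.sqrt_pos.2 hl0
  have hsq : √l ^ 2 = l := Real.sq_sqrt hl0.le
  obtain ⟨m, φ', hE, hsp, hSl⟩ :=
    hSL (En d) (mu Ω) d C0 (√l) X X' W W' i K hd hX hSb hWk.comp hω hK.closed hSK hR
  have hm : 1 ≤ m := by
    rcases Nat.eq_zero_or_pos m with h | h
    · exfalso
      subst h
      have h1 := hsp φ hφK (by rw [hsq]; exact e1)
      rw [Set.range_eq_empty, Submodule.span_empty, Submodule.mem_bot] at h1
      exact hφ h1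
    · exact h
  obtain ⟨M, hM⟩ := hMA d Ω p C0 X X' W W' i K Z m (√l) φ' hd hΩ hp hC0 hX hWk hSb hR hm hω hE
  refine ⟨M, fun h a ha => hM (hSl M (fun n hn h3 hnM u huK hu => ?_)) a ha⟩
  refine h n hn h3 hnM u huK ?_
  rw [hWk.eig]
  rw [hsq] at hu
  exact hu

end

end Pool.Agent.BEG.H23
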